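import Mathlib

/-!
# Sharp `L² → L^{2d}` extension inequality for the finite-field moment curve, all `d ≥ 2`, all `q`

Expanding the `d`-th power and using Newton's identities (`p > d`) one gets
`∑_x |(fσ)^∨(x)|^{2d} = q^{-d} S(|f|²)` with `S(a) = ∑_{|k|=d} (d!/k!)² a^k`. Replacing two different
coordinates of `a` by their average strictly increases `S`, because
`∑_i C(j,i)² a^i b^{j-i}` is the coefficient of `X^j` in `(ab + (a+b)X + X²)^j`. So on the simplex `S`
is maximal exactly at the centre.
-/

set_option autoImplicit false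
set_option linter.unusedSectionVars false

namespace Pool.Agent.Results.MP_110370_an.SharpMomentExtension

open Finset

section Newton

variable {F : Type*} [Field F]

/-- equality of the first `d` power sums of two `d`-tuples implies equality of multisets
if `1, …, d` are invertible. -/
theorem multiset_eq_of_psum {d : ℕ} (hd : ∀ j : ℕ, 1 ≤ j → j ≤ d → (j : F) ≠ 0)
    (x y : Fin d → F) (h : ∀ j : ℕ, 1 ≤ j → j ≤ d → ∑ i, x i ^ j = ∑ i, y i ^ j) :
    (univ.val.map x : Multiset F) = univ.val.map y := by
  have hes : ∀ k : ℕ, k ≤ d → MvPolynomial.aeval x (MvPolynomial.esymm (Fin d) F k) =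
      MvPolynomial.aeval y (MvPolynomial.esymm (Fin d) F k) := by
    intro k
    induction k using Nat.strong_induction_on with
    | _ k ih =>
      intro hk
      rcases Nat.eq_zero_or_pos k with rfl | hk0
      · simp [MvPolynomial.esymm_zero]
      have hN := MvPolynomial.mul_esymm_eq_sum (Fin d) F k
      have hx := congrArg (MvPolynomial.aeval x) hN
      have hy := congrArg (MvPolynomial.aeval y) hN
      simp only [map_mul, map_natCast, map_sum, map_pow, map_neg, map_one] at hx hy
      have hrhs : ∑ a ∈ antidiagonal k with a.1 < k, (-1 : F) ^ a.1 *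
            (MvPolynomial.aeval x) (MvPolynomial.esymm (Fin d) F a.1) *
            (MvPolynomial.aeval x) (MvPolynomial.psum (Fin d) F a.2) =
          ∑ a ∈ antidiagonal k with a.1 < k, (-1 : F) ^ a.1 *
            (MvPolynomial.aeval y) (MvPolynomial.esymm (Fin d) F a.1) *
            (MvPolynomial.aeval y) (MvPolynomial.psum (Fin d) F a.2) := by
        refine Finset.sum_congr rfl fun a ha => ?_
        rw [mem_filter, HasAntidiagonal.mem_antidiagonal] at ha
        rw [ih a.1 ha.2 (by omega)]
        have : (MvPolynomial.aeval x) (MvPolynomial.psum (Fin d) F a.2) =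
            (MvPolynomial.aeval y) (MvPolynomial.psum (Fin d) F a.2) := by
          simp only [MvPolynomial.psum, map_sum, map_pow, MvPolynomial.aeval_X]
          exact h a.2 (by omega) (by omega)
        rw [this]
      rw [hrhs, ← hy] at hx
      exact mul_left_cancel₀ (hd k hk0 hk) hx
  have hes' : ∀ k : ℕ, k ≤ d → (univ.val.map x : Multiset F).esymm k = (univ.val.map y : Multiset F).esymm k := by
    intro k hk
    rw [← MvPolynomial.aeval_esymm_eq_multiset_esymm (Fin d) F k x, ← MvPolynomial.aeval_esymm_eq_multiset_esymm (Fin d) F k y]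
    exact hes k hk
  have hcx : Multiset.card (univ.val.map x : Multiset F) = d := by simp
  have hcy : Multiset.card (univ.val.map y : Multiset F) = d := by simp
  have hpoly : ((univ.val.map x : Multiset F).map fun t => Polynomial.X - Polynomial.C t).prod =
      ((univ.val.map y : Multiset F).map fun t => Polynomial.X - Polynomial.C t).prod := by
    rw [Multiset.prod_X_sub_X_eq_sum_esymm, Multiset.prod_X_sub_X_eq_sum_esymm, hcx, hcy]
    refine Finset.sum_congr rfl fun j hj => ?_
    rw [hes' j (by have := Finset.mem_range.1 hj; omega)]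
  have := congrArg Polynomial.roots hpoly
  rwa [Polynomial.roots_multiset_prod_X_sub_C, Polynomial.roots_multiset_prod_X_sub_C] at this

variable [Fintype F] [DecidableEq F]

/-- The multiplicity vector is determined by the power sums. -/
theorem mult_eq_of_psum {d : ℕ} (hd : ∀ j : ℕ, 1 ≤ j → j ≤ d → (j : F) ≠ 0)
    (k l : F → ℕ) (hk : ∑ t, k t = d) (hl : ∑ t, l t = d)
    (h : ∀ j : ℕ, 1 ≤ j → j ≤ d → ∑ t, (k t : F) * t ^ j = ∑ t, (l t : F) * t ^ j) : k = l := by
  -- the multiset
  let M : (F → ℕ) → Multiset F := fun k => ∑ t, Multiset.replicate (k t) t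
  have hcard : ∀ k : F → ℕ, Multiset.card (M k) = ∑ t, k t := by
    intro k; simp [M]
  have hcount : ∀ (k : F → ℕ) (t : F), Multiset.count t (M k) = k t := by
    intro k t
    simp only [M, Multiset.count_sum', Multiset.count_replicate]
    simp
  have hpow : ∀ (k : F → ℕ) (j : ℕ), ((M k).map fun t => t ^ j).sum = ∑ t, (k t : F) * t ^ j := by
    intro k j
    simp only [M]
    have : ∀ s : Finset F, ((∑ t ∈ s, Multiset.replicate (k t) t).map fun t => t ^ j).sum =
        ∑ t ∈ s, (k t : F) * t ^ j := by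
      intro s
      induction s using Finset.induction_on with
      | empty => simp
      | insert a s ha ih =>
        rw [Finset.sum_insert ha, Finset.sum_insert ha, Multiset.map_add, Multiset.sum_add, ih]
        simp
    exact this univ
  have hex : ∀ k : F → ℕ, ∑ t, k t = d → ∃ x : Fin d → F, (univ.val.map x : Multiset F) = M k := by
    intro k hk
    have hc := hcard k
    rw [hk] at hc
    refine ⟨fun i => (M k).toList.get (i.cast (by rw [Multiset.length_toList, hc])), ?_⟩
    have h1 : (univ.val.map fun i : Fin d => (M k).toList.get (i.cast (by rw [Multiset.length_toList, hc]))) =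
        ((List.ofFn fun i : Fin d => (M k).toList.get (i.cast (by rw [Multiset.length_toList, hc])) : List F) : Multiset F) := by
      rw [Fin.univ_val_map]
    rw [h1]
    have h2 : (List.ofFn fun i : Fin d => (M k).toList.get (i.cast (by rw [Multiset.length_toList, hc]))) =
        (M k).toList := by
      apply List.ext_get
      · simp [hc]
      · intro n h1 h2
        simp
    rw [h2, Multiset.coe_toList]
  obtain ⟨x, hx⟩ := hex k hk
  obtain ⟨y, hy⟩ := hex l hl
  have hxy := multiset_eq_of_psum hd x y (by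
    intro j hj1 hj2
    have e1 : ∑ i, x i ^ j = ((univ.val.map x : Multiset F).map fun t => t ^ j).sum := by
      rw [Multiset.map_map]; rfl
    have e2 : ∑ i, y i ^ j = ((univ.val.map y : Multiset F).map fun t => t ^ j).sum := by
      rw [Multiset.map_map]; rfl
    rw [e1, e2, hx, hy, hpow, hpow]
    exact h j hj1 hj2)
  rw [hx, hy] at hxy
  funext t
  rw [← hcount k t, ← hcount l t, hxy]

end Newton

section Fourier

variable {F : Type*} [Field F] [Fintype F] [DecidableEq F]

omit [Fintype F] [DecidableEq F] in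
theorem map_sum_char (ψ : AddChar F ℂ) {ι : Type*} (s : Finset ι) (g : ι → F) :
    ψ (∑ i ∈ s, g i) = ∏ i ∈ s, ψ (g i) := by
  classical
  induction s using Finset.induction_on with
  | empty => simp
  | insert a s ha ih => rw [Finset.sum_insert ha, Finset.prod_insert ha, AddChar.map_add_eq_mul, ih]

/-- orthogonality on `F^d` -/
theorem orth {d : ℕ} (ψ : AddChar F ℂ) (hψ : ψ.IsPrimitive) (y : Fin d → F) :
    ∑ x : Fin d → F, ψ (∑ i, x i * y i) = if y = 0 then (Fintype.card F : ℂ) ^ d else 0 := by
  have h1 : ∀ x : Fin d → F, ψ (∑ i, x i * y i) = ∏ i, ψ (x i * y i) := by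
    intro x
    exact map_sum_char ψ _ _
  simp only [h1]
  rw [← Fintype.piFinset_univ, ← Finset.prod_univ_sum (fun _ => univ) (fun i x => ψ (x * y i))]
  have h2 : ∀ i, ∑ x : F, ψ (x * y i) = if y i = 0 then (Fintype.card F : ℂ) else 0 := by
    intro i
    rw [AddChar.sum_mulShift _ hψ]
    split_ifs <;> simp
  simp only [h2]
  by_cases hy : y = 0
  · simp [hy]
  · rw [if_neg hy]
    obtain ⟨i, hi⟩ := Function.ne_iff.1 hy
    exact Finset.prod_eq_zero (mem_univ i) (by simp at hi; simp [hi])

/-- `S(a) = ∑_{|k| = d} (d!/k!)² a^k`. -/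
noncomputable def S (d : ℕ) {α : Type*} [Fintype α] [DecidableEq α] (a : α → ℝ) : ℝ :=
  ∑ k ∈ piAntidiag (univ : Finset α) d, ((Nat.multinomial univ k : ℝ)) ^ 2 * ∏ t, a t ^ k t

theorem fourier {d : ℕ} (hd : ∀ j : ℕ, 1 ≤ j → j ≤ d → (j : F) ≠ 0)
    (ψ : AddChar F ℂ) (hψ : ψ.IsPrimitive) (f : F → ℂ) :
    ∑ x : Fin d → F, ‖∑ t, f t * ψ (∑ i : Fin d, x i * t ^ (i.val + 1))‖ ^ (2 * d) =
      (Fintype.card F : ℝ) ^ d * S d (fun t => ‖f t‖ ^ 2) := by
  -- the vector Y_k
  let Y : (F → ℕ) → Fin d → F := fun k i => ∑ t, (k t : F) * t ^ (i.val + 1)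
  let c : (F → ℕ) → ℂ := fun k => (Nat.multinomial univ k : ℂ) * ∏ t, f t ^ k t
  have hpow : ∀ x : Fin d → F, (∑ t, f t * ψ (∑ i : Fin d, x i * t ^ (i.val + 1))) ^ d =
      ∑ k ∈ piAntidiag (univ : Finset F) d, c k * ψ (∑ i, x i * Y k i) := by
    intro x
    rw [Finset.sum_pow_eq_sum_piAntidiag]
    refine Finset.sum_congr rfl fun k _ => ?_
    simp only [c, mul_pow, Finset.prod_mul_distrib]
    have : ∏ t, ψ (∑ i : Fin d, x i * t ^ (i.val + 1)) ^ k t = ψ (∑ i, x i * Y k i) := by
      have e1 : ∀ t : F, ψ (∑ i : Fin d, x i * t ^ (i.val + 1)) ^ k t =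
          ψ (k t • ∑ i : Fin d, x i * t ^ (i.val + 1)) := by
        intro t; rw [AddChar.map_nsmul_eq_pow]
      simp only [e1]
      rw [← map_sum_char]
      congr 1
      simp only [Y, Finset.mul_sum, nsmul_eq_mul]
      rw [Finset.sum_comm]
      refine Finset.sum_congr rfl fun i _ => Finset.sum_congr rfl fun t _ => ?_
      ring
    rw [this, mul_assoc]
  have hnorm : ∀ z : ℂ, ((‖z‖ ^ (2 * d) : ℝ) : ℂ) = z ^ d * (starRingEnd ℂ) (z ^ d) := by
    intro z
    rw [Complex.mul_conj, Complex.normSq_eq_norm_sq, norm_pow, ← pow_mul, mul_comm d 2]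
  have hC : ((∑ x : Fin d → F, ‖∑ t, f t * ψ (∑ i : Fin d, x i * t ^ (i.val + 1))‖ ^ (2 * d) : ℝ) : ℂ) =
      (((Fintype.card F : ℝ) ^ d * S d (fun t => ‖f t‖ ^ 2) : ℝ) : ℂ) := by
    rw [Complex.ofReal_sum]
    simp only [hnorm, hpow]
    have hconj : ∀ a : F, (starRingEnd ℂ) (ψ a) = ψ (-a) := by
      intro a; rw [AddChar.map_neg_eq_conj]
    have e1 : ∀ x : Fin d → F, (∑ k ∈ piAntidiag (univ : Finset F) d, c k * ψ (∑ i, x i * Y k i)) *
        (starRingEnd ℂ) (∑ k ∈ piAntidiag (univ : Finset F) d, c k * ψ (∑ i, x i * Y k i)) =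
        ∑ k ∈ piAntidiag (univ : Finset F) d, ∑ l ∈ piAntidiag (univ : Finset F) d,
          c k * (starRingEnd ℂ) (c l) * ψ (∑ i, x i * (Y k - Y l) i) := by
      intro x
      rw [map_sum, Finset.sum_mul_sum]
      refine Finset.sum_congr rfl fun k _ => Finset.sum_congr rfl fun l _ => ?_
      rw [map_mul, hconj]
      have : ψ (∑ i, x i * (Y k - Y l) i) = ψ (∑ i, x i * Y k i) * ψ (-∑ i, x i * Y l i) := by
        rw [← AddChar.map_add_eq_mul]
        congr 1
        simp only [Pi.sub_apply, mul_sub, Finset.sum_sub_distrib]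
        ring
      rw [this]; ring
    simp only [e1]
    rw [Finset.sum_comm]
    simp_rw [Finset.sum_comm (s := univ) (t := piAntidiag (univ : Finset F) d), ← Finset.mul_sum]
    simp only [orth ψ hψ]
    have e2 : ∀ k ∈ piAntidiag (univ : Finset F) d,
        ∑ l ∈ piAntidiag (univ : Finset F) d, c k * (starRingEnd ℂ) (c l) *
          (if Y k - Y l = 0 then (Fintype.card F : ℂ) ^ d else 0) =
        c k * (starRingEnd ℂ) (c k) * (Fintype.card F : ℂ) ^ d := by
      intro k hk
      rw [Finset.sum_eq_single k]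
      · simp
      · intro l hl hne
        rw [if_neg, mul_zero]
        intro h0
        apply hne
        have hY : Y k = Y l := sub_eq_zero.1 h0
        symm
        apply mult_eq_of_psum hd k l
        · simpa using (mem_piAntidiag.1 hk).1
        · simpa using (mem_piAntidiag.1 hl).1
        · intro j hj1 hj2
          have := congrFun hY ⟨j - 1, by omega⟩
          simp only [Y] at this
          rwa [Nat.sub_add_cancel hj1] at this
      · intro h; exact absurd hk h
    rw [Finset.sum_congr rfl e2, S]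
    push_cast
    rw [Finset.mul_sum]
    refine Finset.sum_congr rfl fun k _ => ?_
    rw [Complex.mul_conj, Complex.normSq_eq_norm_sq]
    simp only [c, norm_mul, norm_prod, norm_pow, Complex.norm_natCast]
    push_cast
    rw [mul_pow, ← Finset.prod_pow]
    have : ∀ t, ((‖f t‖ : ℂ) ^ k t) ^ 2 = ((‖f t‖ : ℂ) ^ 2) ^ k t := by
      intro t; rw [← pow_mul, ← pow_mul, mul_comm]
    simp only [this]
    ring
  exact_mod_cast hC

end Fourier

section Majorize

/-- coefficientwise order of nonnegative polynomials -/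
def Cle (P Q : Polynomial ℝ) : Prop := ∀ n, 0 ≤ P.coeff n ∧ P.coeff n ≤ Q.coeff n

theorem Cle.mul {P Q P' Q' : Polynomial ℝ} (h : Cle P Q) (h' : Cle P' Q') : Cle (P * P') (Q * Q') := by
  intro n
  rw [Polynomial.coeff_mul, Polynomial.coeff_mul]
  constructor
  · exact Finset.sum_nonneg fun x _ => mul_nonneg (h x.1).1 (h' x.2).1
  · exact Finset.sum_le_sum fun x _ =>
      mul_le_mul (h x.1).2 (h' x.2).2 (h' x.2).1 ((h x.1).1.trans (h x.1).2)

theorem Cle.pow {P Q : Polynomial ℝ} (h : Cle P Q) (n : ℕ) : Cle (P ^ n) (Q ^ n) := by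
  induction n with
  | zero =>
    intro m
    simp only [pow_zero, Polynomial.coeff_one]
    split_ifs <;> simp
  | succ n ih => rw [pow_succ, pow_succ]; exact ih.mul h

/-- `P_u = u + sX + X²`. -/
noncomputable def Pu (s u : ℝ) : Polynomial ℝ :=
  Polynomial.C u + Polynomial.C s * Polynomial.X + Polynomial.X ^ 2

theorem Pu_coeff (s u : ℝ) (n : ℕ) : (Pu s u).coeff n =
    (if n = 0 then u else 0) + (if n = 1 then s else 0) + (if n = 2 then 1 else 0) := by
  unfold Pu
  rw [Polynomial.coeff_add, Polynomial.coeff_add, Polynomial.coeff_C, Polynomial.coeff_C_mul,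
    Polynomial.coeff_X, Polynomial.coeff_X_pow]
  congr 2
  by_cases h : n = 1
  · subst h; simp
  · rw [if_neg (fun h' => h h'.symm), if_neg h, mul_zero]

theorem Pu_le {s u v : ℝ} (hs : 0 ≤ s) (hu : 0 ≤ u) (huv : u ≤ v) : Cle (Pu s u) (Pu s v) := by
  intro n
  rw [Pu_coeff, Pu_coeff]
  constructor
  · split_ifs <;> linarith
  · gcongr
    split_ifs <;> linarith

theorem Pu_strict {s u v : ℝ} (hs : 0 < s) (hu : 0 ≤ u) (huv : u < v) {j : ℕ} (hj : 2 ≤ j) :
    ((Pu s u) ^ j).coeff j < ((Pu s v) ^ j).coeff j := by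
  obtain ⟨m, rfl⟩ := Nat.exists_eq_add_of_le hj
  have hle : Cle (Pu s u) (Pu s v) := Pu_le hs.le hu huv.le
  have hvv : Cle (Pu s v) (Pu s v) := Pu_le hs.le (hu.trans huv.le) le_rfl
  -- P_v^(m+2) ≥ P_v * P_u^(m+1)
  have h1 := (hvv.mul (hle.pow (m + 1))) (2 + m)
  have h2 : Pu s v * Pu s u ^ (m + 1) = Pu s u ^ (2 + m) +
      Polynomial.C (v - u) * Pu s u ^ (m + 1) := by
    have : Pu s v = Pu s u + Polynomial.C (v - u) := by
      unfold Pu; rw [Polynomial.C_sub]; ring
    rw [this]; ring
  have h3 : Pu s v * Pu s v ^ (m + 1) = Pu s v ^ (2 + m) := by ring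
  rw [h2, h3, Polynomial.coeff_add, Polynomial.coeff_C_mul] at h1
  have hpos : 0 < (Pu s u ^ (m + 1)).coeff (2 + m) := by
    have hlow : Cle (Polynomial.X * (Polynomial.X + Polynomial.C s)) (Pu s u) := by
      intro n
      have : (Polynomial.X * (Polynomial.X + Polynomial.C s) : Polynomial ℝ) = Pu s 0 := by
        unfold Pu; rw [Polynomial.C_0]; ring
      rw [this]
      exact Pu_le hs.le le_rfl hu n
    have h4 := ((hlow.pow (m + 1)) (2 + m)).2
    refine lt_of_lt_of_le ?_ h4
    rw [mul_pow, show 2 + m = 1 + (m + 1) by ring, Polynomial.coeff_X_pow_mul,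
      Polynomial.coeff_X_add_C_pow]
    have : (0 : ℝ) < ((m + 1).choose 1 : ℕ) := by
      rw [Nat.choose_one_right]; positivity
    positivity
  have := mul_pos (sub_pos.2 huv) hpos
  linarith [h1.2]

/-- `J(x) = ∑ x^k X^k/(k!)²`. -/
noncomputable def J (x : ℝ) : PowerSeries ℝ := PowerSeries.mk fun k => x ^ k / ((k.factorial : ℝ)) ^ 2

theorem J_mul (a b : ℝ) (j : ℕ) :
    ((j.factorial : ℝ)) ^ 2 * PowerSeries.coeff j (J a * J b) = ((Pu (a + b) (a * b)) ^ j).coeff j := by
  have h1 : Pu (a + b) (a * b) = (Polynomial.X + Polynomial.C b) * (Polynomial.X + Polynomial.C a) := by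
    unfold Pu; rw [Polynomial.C_add, Polynomial.C_mul]; ring
  rw [h1, mul_pow, Polynomial.coeff_mul, PowerSeries.coeff_mul, Finset.mul_sum]
  refine Finset.sum_congr rfl fun x hx => ?_
  rw [HasAntidiagonal.mem_antidiagonal] at hx
  rw [Polynomial.coeff_X_add_C_pow, Polynomial.coeff_X_add_C_pow]
  simp only [J, PowerSeries.coeff_mk]
  have e1 : j - x.1 = x.2 := by omega
  have e2 : j - x.2 = x.1 := by omega
  rw [e1, e2]
  have hc1 : ((j.choose x.1 : ℕ) : ℝ) = (j.factorial : ℝ) / ((x.1.factorial : ℝ) * (x.2.factorial : ℝ)) := by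
    rw [Nat.cast_choose ℝ (by omega : x.1 ≤ j), e1]
  have hc2 : ((j.choose x.2 : ℕ) : ℝ) = (j.factorial : ℝ) / ((x.1.factorial : ℝ) * (x.2.factorial : ℝ)) := by
    rw [Nat.cast_choose ℝ (by omega : x.2 ≤ j), e2, mul_comm]
  rw [hc1, hc2]
  have p1 : (0 : ℝ) < x.1.factorial := by exact_mod_cast Nat.factorial_pos _
  have p2 : (0 : ℝ) < x.2.factorial := by exact_mod_cast Nat.factorial_pos _
  field_simp

variable {α : Type*} [Fintype α] [DecidableEq α]

theorem S_eq_coeff (d : ℕ) (a : α → ℝ) :
    S d a = ((d.factorial : ℝ)) ^ 2 * PowerSeries.coeff d (∏ t, J (a t)) := by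
  rw [PowerSeries.coeff_prod, Finset.mul_sum, S]
  symm
  refine Finset.sum_bij (fun l _ => (l : α → ℕ)) ?_ ?_ ?_ ?_
  · intro l hl
    rw [mem_finsuppAntidiag] at hl
    rw [mem_piAntidiag]
    exact ⟨by simpa using hl.1, fun i _ => mem_univ i⟩
  · intro l _ l' _ h
    exact DFunLike.coe_injective h
  · intro k hk
    rw [mem_piAntidiag] at hk
    refine ⟨Finsupp.equivFunOnFinite.symm k, ?_, ?_⟩
    · rw [mem_finsuppAntidiag]
      exact ⟨by simpa using hk.1, fun i _ => mem_univ i⟩
    · simp
  · intro l hl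
    rw [mem_finsuppAntidiag] at hl
    have hsum : ∑ t, l t = d := by simpa using hl.1
    have hspec := Nat.multinomial_spec (s := (univ : Finset α)) (f := fun t => l t)
    rw [hsum] at hspec
    have hspec' : (∏ t, ((l t).factorial : ℝ)) * (Nat.multinomial univ (fun t => l t) : ℝ) = d.factorial := by
      exact_mod_cast hspec
    simp only [J, PowerSeries.coeff_mk, Finset.prod_div_distrib, Finset.prod_pow]
    have hpos : (0 : ℝ) < ∏ t, ((l t).factorial : ℝ) :=
      Finset.prod_pos fun t _ => by exact_mod_cast Nat.factorial_pos _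
    rw [← hspec']
    field_simp

/-- nonnegativity of coefficients of products of `J` -/
theorem J_prod_nonneg (a : α → ℝ) (ha : ∀ t, 0 ≤ a t) (s : Finset α) (n : ℕ) :
    0 ≤ PowerSeries.coeff n (∏ t ∈ s, J (a t)) := by
  rw [PowerSeries.coeff_prod]
  refine Finset.sum_nonneg fun l _ => Finset.prod_nonneg fun t _ => ?_
  simp only [J, PowerSeries.coeff_mk]
  have := ha t
  positivity

theorem J_prod_zero (a : α → ℝ) (s : Finset α) :
    PowerSeries.coeff 0 (∏ t ∈ s, J (a t)) = 1 := by
  rw [PowerSeries.coeff_zero_eq_constantCoeff, map_prod]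
  refine Finset.prod_eq_one fun t _ => ?_
  rw [← PowerSeries.coeff_zero_eq_constantCoeff]
  simp [J]

/-- averaging two different coordinates increases `S` strictly -/
theorem S_avg {d : ℕ} (hd : 2 ≤ d) (a : α → ℝ) (ha : ∀ t, 0 ≤ a t) {s t : α} (hst : s ≠ t)
    (hne : a s ≠ a t) :
    S d a < S d (Function.update (Function.update a s ((a s + a t) / 2)) t ((a s + a t) / 2)) := by
  set c : ℝ := (a s + a t) / 2 with hc
  set a' := Function.update (Function.update a s c) t c with ha'
  rw [S_eq_coeff, S_eq_coeff]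
  have hfac : (0 : ℝ) < (d.factorial : ℝ) ^ 2 := by
    have : (0 : ℝ) < d.factorial := by exact_mod_cast Nat.factorial_pos _
    positivity
  apply mul_lt_mul_of_pos_left _ hfac
  have hs' : a' s = c := by
    rw [ha', Function.update_of_ne hst, Function.update_self]
  have ht' : a' t = c := by rw [ha', Function.update_self]
  have hother : ∀ r, r ≠ s → r ≠ t → a' r = a r := by
    intro r h1 h2
    rw [ha', Function.update_of_ne h2, Function.update_of_ne h1]
  have hsplit : ∀ b : α → ℝ, ∏ r, J (b r) = (J (b s) * J (b t)) *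
      ∏ r ∈ (univ.erase s).erase t, J (b r) := by
    intro b
    rw [mul_assoc, Finset.mul_prod_erase (univ.erase s) (fun r => J (b r)) (by simp [hst.symm]),
      Finset.mul_prod_erase univ (fun r => J (b r)) (mem_univ s)]
  rw [hsplit a, hsplit a', hs', ht']
  have hR : ∏ r ∈ (univ.erase s).erase t, J (a' r) = ∏ r ∈ (univ.erase s).erase t, J (a r) := by
    refine Finset.prod_congr rfl fun r hr => ?_
    rw [mem_erase, mem_erase] at hr
    rw [hother r hr.2.1 hr.1]
  rw [hR]
  set R := ∏ r ∈ (univ.erase s).erase t, J (a r) with hRdef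
  rw [PowerSeries.coeff_mul, PowerSeries.coeff_mul]
  have hspos : 0 < a s + a t := by
    rcases lt_or_gt_of_ne hne with h | h
    · linarith [ha s]
    · linarith [ha t]
  have hfj : ∀ j : ℕ, (0 : ℝ) < (j.factorial : ℝ) ^ 2 := by
    intro j
    have : (0 : ℝ) < j.factorial := by exact_mod_cast Nat.factorial_pos _
    positivity
  have hcc : c + c = a s + a t := by rw [hc]; ring
  have hle : ∀ j, PowerSeries.coeff j (J (a s) * J (a t)) ≤ PowerSeries.coeff j (J c * J c) := by
    intro j
    have h1 := J_mul (a s) (a t) j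
    have h2 := J_mul c c j
    rw [hcc] at h2
    have h3 := (((Pu_le (s := a s + a t) hspos.le (mul_nonneg (ha s) (ha t))
      (v := c * c) (by rw [hc]; nlinarith [sq_nonneg (a s - a t)])).pow j) j).2
    rw [← h1, ← h2] at h3
    exact le_of_mul_le_mul_left h3 (hfj j)
  have hlt : PowerSeries.coeff d (J (a s) * J (a t)) < PowerSeries.coeff d (J c * J c) := by
    have h1 := J_mul (a s) (a t) d
    have h2 := J_mul c c d
    rw [hcc] at h2
    have h3 := Pu_strict (s := a s + a t) hspos (mul_nonneg (ha s) (ha t))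
      (v := c * c) (by
        rw [hc]
        have : 0 < (a s - a t) ^ 2 := by
          have : a s - a t ≠ 0 := sub_ne_zero.2 hne
          positivity
        nlinarith) hd
    rw [← h1, ← h2] at h3
    exact lt_of_mul_lt_mul_left h3 (hfj d).le
  refine Finset.sum_lt_sum ?_ ⟨(d, 0), by simp, ?_⟩
  · intro x _
    exact mul_le_mul_of_nonneg_right (hle x.1) (J_prod_nonneg a ha _ _)
  · simp only
    rw [hRdef, J_prod_zero, mul_one, mul_one]
    exact hlt

theorem S_continuous (d : ℕ) : Continuous fun a : α → ℝ => S d a := by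
  unfold S
  fun_prop

theorem S_smul (d : ℕ) (a : α → ℝ) (c : ℝ) : S d (fun t => c * a t) = c ^ d * S d a := by
  unfold S
  rw [Finset.mul_sum]
  refine Finset.sum_congr rfl fun k hk => ?_
  rw [mem_piAntidiag] at hk
  have : ∏ t, (c * a t) ^ k t = c ^ d * ∏ t, a t ^ k t := by
    simp only [mul_pow, Finset.prod_mul_distrib]
    rw [Finset.prod_pow_eq_pow_sum]
    have : ∑ t, k t = d := by simpa using hk.1
    rw [this]
  rw [this]; ring

/-- sharp inequality on the simplex -/
theorem S_simplex [Nonempty α] {d : ℕ} (hd : 2 ≤ d) (a : α → ℝ) (ha : a ∈ stdSimplex ℝ α) :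
    S d a ≤ S d (fun _ : α => (1 / (Fintype.card α : ℝ))) ∧
      (S d a = S d (fun _ : α => (1 / (Fintype.card α : ℝ))) → ∀ s t, a s = a t) := by
  have hq : (0 : ℝ) < Fintype.card α := by exact_mod_cast Fintype.card_pos
  have hne : (stdSimplex ℝ α).Nonempty := ⟨a, ha⟩
  obtain ⟨b, hb, hmax⟩ := (isCompact_stdSimplex ℝ α).exists_isMaxOn hne
    (S_continuous (α := α) d).continuousOn
  have hconst_of_max : ∀ b ∈ stdSimplex ℝ α, IsMaxOn (fun a : α → ℝ => S d a) (stdSimplex ℝ α) b →
      ∀ s t, b s = b t := by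
    intro b hb hmax s t
    by_contra hne
    have hst : s ≠ t := fun h => hne (by rw [h])
    have hlt := S_avg hd b hb.1 hst hne
    have hmem : Function.update (Function.update b s ((b s + b t) / 2)) t ((b s + b t) / 2) ∈
        stdSimplex ℝ α := by
      constructor
      · intro r
        by_cases h1 : r = t
        · subst h1; rw [Function.update_self]; linarith [hb.1 s, hb.1 r]
        · rw [Function.update_of_ne h1]
          by_cases h2 : r = s
          · subst h2; rw [Function.update_self]; linarith [hb.1 r, hb.1 t]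
          · rw [Function.update_of_ne h2]; exact hb.1 r
      · have h1 : ∀ (g : α → ℝ) , ∑ r, g r = g s + (g t + ∑ r ∈ (univ.erase s).erase t, g r) := by
          intro g
          rw [Finset.add_sum_erase ((univ : Finset α).erase s) g (by simp [hst.symm]),
            Finset.add_sum_erase (univ : Finset α) g (mem_univ s)]
        have h2 := h1 (Function.update (Function.update b s ((b s + b t) / 2)) t ((b s + b t) / 2))
        have h3 := h1 b
        rw [hb.2] at h3
        rw [h2, Function.update_self, Function.update_of_ne hst, Function.update_self]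
        have h4 : ∑ r ∈ ((univ : Finset α).erase s).erase t,
            Function.update (Function.update b s ((b s + b t) / 2)) t ((b s + b t) / 2) r =
            ∑ r ∈ ((univ : Finset α).erase s).erase t, b r := by
          refine Finset.sum_congr rfl fun r hr => ?_
          rw [mem_erase, mem_erase] at hr
          rw [Function.update_of_ne hr.1, Function.update_of_ne hr.2.1]
        rw [h4]; linarith
    exact absurd (hmax hmem) (not_le.2 hlt)
  have hbc : b = fun _ => (1 / (Fintype.card α : ℝ)) := by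
    have h1 := hconst_of_max b hb hmax
    funext t
    have h2 : ∑ r, b r = Fintype.card α * b t := by
      rw [Finset.sum_congr rfl fun r _ => h1 r t]
      simp
    rw [hb.2] at h2
    field_simp
    linarith
  constructor
  · rw [← hbc]; exact hmax ha
  · intro heq
    apply hconst_of_max a ha
    intro x hx
    have := hmax hx
    simp only [Set.mem_ofPred_eq] at this ⊢
    rw [heq, ← hbc]
    exact this

/-- sharp inequality for nonnegative vectors -/
theorem S_le [Nonempty α] {d : ℕ} (hd : 2 ≤ d) (a : α → ℝ) (ha : ∀ t, 0 ≤ a t) :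
    S d a ≤ ((∑ t, a t) / Fintype.card α) ^ d * S d (fun _ : α => 1) ∧
      ((∃ t, a t ≠ 0) → (S d a = ((∑ t, a t) / Fintype.card α) ^ d * S d (fun _ : α => 1) ↔
        ∀ s t, a s = a t)) := by
  have hq : (0 : ℝ) < Fintype.card α := by exact_mod_cast Fintype.card_pos
  have hone : S d (fun _ : α => (1 / (Fintype.card α : ℝ))) =
      (1 / (Fintype.card α : ℝ)) ^ d * S d (fun _ : α => 1) := by
    rw [← S_smul]; simp
  by_cases h0 : ∀ t, a t = 0
  · have : a = fun _ => 0 := funext h0
    constructor
    · rw [this]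
      have h1 := S_smul d (fun _ : α => (1 : ℝ)) 0
      simp only [zero_mul] at h1
      rw [h1]
      simp
    · rintro ⟨t, ht⟩; exact absurd (h0 t) ht
  · push Not at h0
    obtain ⟨t0, ht0⟩ := h0
    set A := ∑ t, a t with hA
    have hApos : 0 < A := Finset.sum_pos' (fun t _ => ha t) ⟨t0, mem_univ _, lt_of_le_of_ne (ha t0) ht0.symm⟩
    have hmem : (fun t => A⁻¹ * a t) ∈ stdSimplex ℝ α := by
      constructor
      · intro t; exact mul_nonneg (inv_nonneg.2 hApos.le) (ha t)
      · rw [← Finset.mul_sum, ← hA, inv_mul_cancel₀ hApos.ne']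
    have hS := S_simplex hd _ hmem
    rw [S_smul, hone] at hS
    have hAd : (0 : ℝ) < A ^ d := by positivity
    have heqv : A ^ d * (A⁻¹ ^ d * S d a) = S d a := by
      rw [← mul_assoc, ← mul_pow, mul_inv_cancel₀ hApos.ne', one_pow, one_mul]
    have heqv2 : A ^ d * ((1 / (Fintype.card α : ℝ)) ^ d * S d (fun _ : α => 1)) =
        (A / Fintype.card α) ^ d * S d (fun _ : α => 1) := by
      rw [← mul_assoc, ← mul_pow, mul_one_div]
    constructor
    · rw [← heqv, ← heqv2]
      exact mul_le_mul_of_nonneg_left hS.1 hAd.le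
    · intro _
      constructor
      · intro heq s t
        rw [← heqv, ← heqv2] at heq
        have h1 := hS.2 (mul_left_cancel₀ hAd.ne' heq) s t
        exact mul_left_cancel₀ (inv_ne_zero hApos.ne') h1
      · intro hall
        have hac : a = fun _ => a t0 * 1 := by funext t; rw [mul_one]; exact hall t t0
        have hA2 : A = Fintype.card α * a t0 := by
          rw [hA, Finset.sum_congr rfl fun r _ => hall r t0]; simp
        have h1 := S_smul d (fun _ : α => (1 : ℝ)) (a t0)
        rw [← hac] at h1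
        rw [h1, hA2, mul_div_cancel_left₀ _ hq.ne']

end Majorize

section Count

variable {α : Type*} [Fintype α] [DecidableEq α]

/-- nonzero values of `k` with multiplicity -/
def partsOf (k : α → ℕ) : Multiset ℕ := (univ.val.map k).filter (· ≠ 0)

theorem card_fiber (k : α → ℕ) (c : ℕ) : Fintype.card {a // k a = c} = (univ.val.map k : Multiset ℕ).count c := by
  rw [Fintype.card_subtype, Multiset.count_map]
  rw [Finset.card_def]
  congr 1
  apply Multiset.filter_congr
  intro x _
  exact eq_comm

theorem card_fiber_ne {k : α → ℕ} {c : ℕ} (hc : c ≠ 0) : Fintype.card {a // k a = c} = (partsOf k).count c := by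
  rw [card_fiber, partsOf, Multiset.count_filter_of_pos (p := fun x : ℕ => x ≠ 0) hc]

theorem card_fiber_zero (k : α → ℕ) :
    Fintype.card {a // k a = 0} + Multiset.card (partsOf k) = Fintype.card α := by
  rw [card_fiber, partsOf]
  have h : ∀ s : Multiset ℕ, s.count 0 + Multiset.card (s.filter fun x => x ≠ 0) = Multiset.card s := by
    intro s
    induction s using Multiset.induction_on with
    | empty => simp
    | cons a s ih =>
      by_cases ha : a = 0
      · subst ha
        rw [Multiset.filter_cons_of_neg (p := fun x : ℕ => x ≠ 0) _ (by simp),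
          Multiset.count_cons_self, Multiset.card_cons]
        omega
      · rw [Multiset.filter_cons_of_pos (p := fun x : ℕ => x ≠ 0) _ ha,
          Multiset.count_cons_of_ne (Ne.symm ha), Multiset.card_cons, Multiset.card_cons]
        omega
  rw [h]
  simp

theorem exists_perm {k l : α → ℕ} (h : partsOf k = partsOf l) : ∃ g : Equiv.Perm α, l ∘ g = k := by
  have hc : ∀ c, Fintype.card {a // k a = c} = Fintype.card {a // l a = c} := by
    intro c
    by_cases hc : c = 0
    · subst hc
      have h1 := card_fiber_zero k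
      have h2 := card_fiber_zero l
      rw [h] at h1
      omega
    · rw [card_fiber_ne hc, card_fiber_ne hc, h]
  refine ⟨Equiv.ofFiberEquiv fun c => Fintype.equivOfCardEq (hc c), ?_⟩
  funext a
  exact Equiv.ofFiberEquiv_map _ a

theorem parts_comp (k : α → ℕ) (g : Equiv.Perm α) : partsOf (k ∘ g) = partsOf k := by
  unfold partsOf
  congr 1
  rw [← Multiset.map_map]
  congr 1
  exact Multiset.map_univ_val_equiv g

/-- the number of vectors with the same nonzero values -/
theorem count_parts (T : Finset (α → ℕ)) (k0 : α → ℕ) (hT : ∀ k, k ∈ T ↔ partsOf k = partsOf k0)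
    (d : ℕ) (hd : ∀ t, k0 t ≤ d) :
    (T.card) * ((Fintype.card α - Multiset.card (partsOf k0)).factorial *
      ∏ j ∈ Icc 1 d, ((partsOf k0).count j).factorial) = (Fintype.card α).factorial := by
  have hstab : Fintype.card {g : Equiv.Perm α // k0 ∘ g = k0} =
      (Fintype.card α - Multiset.card (partsOf k0)).factorial *
      ∏ j ∈ Icc 1 d, ((partsOf k0).count j).factorial := by
    rw [DomMulAct.stabilizer_card']
    have h1 : ∏ i ∈ Finset.univ.image k0, (Fintype.card ({a // k0 a = i})).factorial =
        ∏ i ∈ Finset.range (d + 1), (Fintype.card ({a // k0 a = i})).factorial := by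
      apply Finset.prod_subset
      · intro i hi
        rw [mem_image] at hi
        obtain ⟨a, _, rfl⟩ := hi
        rw [mem_range]
        have := hd a
        omega
      · intro i _ hi
        have : Fintype.card ({a // k0 a = i}) = 0 := by
          rw [Fintype.card_eq_zero_iff]
          constructor
          rintro ⟨a, ha⟩
          apply hi
          rw [mem_image]
          exact ⟨a, mem_univ _, ha⟩
        rw [this]; rfl
    rw [h1, Finset.prod_range_succ', mul_comm]
    congr 1
    · have := card_fiber_zero k0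
      congr 1
      omega
    · rw [Finset.range_eq_Ico, Finset.prod_Ico_add' (fun j => (Fintype.card {a // k0 a = j}).factorial) 0 d 1]
      refine Finset.prod_congr (by ext x; simp) fun j hj => ?_
      have hj1 := (mem_Icc.1 hj).1
      rw [card_fiber_ne (by omega)]
  rw [← hstab, ← Fintype.card_perm]
  have hmap : ∀ g ∈ (univ : Finset (Equiv.Perm α)), k0 ∘ g ∈ T := by
    intro g _
    rw [hT, parts_comp]
  have hcard := Finset.card_eq_sum_card_fiberwise (f := fun g : Equiv.Perm α => k0 ∘ g) (s := univ) (t := T)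
    (by intro g hg; exact hmap g (mem_univ g))
  rw [Finset.card_univ] at hcard
  rw [hcard]
  have heach : ∀ k ∈ T, (univ.filter fun g : Equiv.Perm α => k0 ∘ g = k).card =
      Fintype.card {g : Equiv.Perm α // k0 ∘ g = k0} := by
    intro k hk
    rw [hT] at hk
    obtain ⟨g1, hg1⟩ := exists_perm hk
    rw [← Fintype.card_subtype]
    refine Fintype.card_congr ?_
    refine (Equiv.mulRight g1⁻¹).subtypeEquiv ?_
    intro g
    simp only [Equiv.coe_mulRight, Equiv.Perm.coe_mul]
    constructor
    · intro h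
      rw [← Function.comp_assoc, h, ← hg1, Function.comp_assoc]
      funext a; simp
    · intro h
      rw [← Function.comp_assoc] at h
      rw [← hg1]
      funext a
      have := congrFun h (g1 a)
      simpa using this
  rw [Finset.sum_congr rfl heach]
  simp

theorem prod_factorial_parts (k : α → ℕ) :
    ∏ t, (k t).factorial = ((partsOf k).map Nat.factorial).prod := by
  unfold partsOf
  have h : ∀ s : Multiset ℕ, ((s.filter (· ≠ 0)).map Nat.factorial).prod = (s.map Nat.factorial).prod := by
    intro s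
    induction s using Multiset.induction_on with
    | empty => simp
    | cons a s ih =>
      by_cases ha : a = 0
      · subst ha
        rw [Multiset.filter_cons_of_neg (p := fun x : ℕ => x ≠ 0) _ (by simp), ih]
        simp
      · rw [Multiset.filter_cons_of_pos (p := fun x : ℕ => x ≠ 0) _ ha, Multiset.map_cons, Multiset.prod_cons, ih,
          Multiset.map_cons, Multiset.prod_cons]
  rw [h, Multiset.map_map]
  rfl

theorem sum_parts (k : α → ℕ) : (partsOf k).sum = ∑ t, k t := by
  unfold partsOf
  have h : ∀ s : Multiset ℕ, (s.filter (· ≠ 0)).sum = s.sum := by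
    intro s
    induction s using Multiset.induction_on with
    | empty => simp
    | cons a s ih =>
      by_cases ha : a = 0
      · subst ha
        rw [Multiset.filter_cons_of_neg (p := fun x : ℕ => x ≠ 0) _ (by simp), ih]
        simp
      · rw [Multiset.filter_cons_of_pos (p := fun x : ℕ => x ≠ 0) _ ha, Multiset.sum_cons, ih, Multiset.sum_cons]
  rw [h]
  rfl

/-- realize a multiset of positive numbers as the nonzero values of a function -/
theorem exists_vector (m : Multiset ℕ) (hm : ∀ i ∈ m, i ≠ 0) (hc : Multiset.card m ≤ Fintype.card α) :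
    ∃ k : α → ℕ, partsOf k = m := by
  let L : List ℕ := m.toList ++ List.replicate (Fintype.card α - Multiset.card m) 0
  have hL : L.length = Fintype.card α := by simp [L]; omega
  let e := Fintype.equivFin α
  refine ⟨fun a => L.get ((e a).cast hL.symm), ?_⟩
  have h1 : (univ.val.map fun a => L.get ((e a).cast hL.symm)) = (L : Multiset ℕ) := by
    have h2 : (univ.val.map fun a => L.get ((e a).cast hL.symm)) =
        ((univ : Finset α).val.map e).map fun i : Fin (Fintype.card α) => L.get (i.cast hL.symm) := by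
      rw [Multiset.map_map]; rfl
    rw [h2]
    have h3 : (univ : Finset α).val.map e = (univ : Finset (Fin (Fintype.card α))).val :=
      Multiset.map_univ_val_equiv e
    rw [h3, Fin.univ_val_map]
    congr 1
    apply List.ext_get
    · simp [hL]
    · intro n h1 h2
      simp
  unfold partsOf
  rw [h1]
  have h4 : (L : Multiset ℕ) = m + Multiset.replicate (Fintype.card α - Multiset.card m) 0 := by
    simp only [L]
    rw [← Multiset.coe_add, Multiset.coe_toList, Multiset.coe_replicate]
  rw [h4, Multiset.filter_add]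
  have h5 : m.filter (· ≠ 0) = m := Multiset.filter_eq_self.2 hm
  have h6 : (Multiset.replicate (Fintype.card α - Multiset.card m) 0).filter (· ≠ 0) = 0 := by
    rw [Multiset.filter_eq_nil]
    intro a ha
    rw [Multiset.eq_of_mem_replicate ha]
    simp
  rw [h5, h6, add_zero]

/-- `∑_ℓ (d!/ℓ!)² q!/(b_0! b_1! ⋯ b_d!)` over the partitions of `d`. -/
noncomputable def partSum (d q : ℕ) : ℝ :=
  ∑ ℓ : Nat.Partition d,
    ((d.factorial : ℝ) / ((ℓ.parts.map Nat.factorial).prod : ℕ)) ^ 2 *
      ((q.factorial : ℝ) / ((q - Multiset.card ℓ.parts).factorial *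
        ∏ j ∈ Icc 1 d, (ℓ.parts.count j).factorial : ℕ))

theorem S_one_eq (d : ℕ) (hd : d ≤ Fintype.card α) :
    S d (fun _ : α => (1 : ℝ)) = partSum d (Fintype.card α) := by
  unfold S partSum
  simp only [one_pow, Finset.prod_const_one, mul_one]
  have h1 : ∀ k ∈ piAntidiag (univ : Finset α) d, ((Nat.multinomial univ k : ℝ)) ^ 2 =
      ∑ ℓ : Nat.Partition d, if partsOf k = ℓ.parts then
        ((d.factorial : ℝ) / ((ℓ.parts.map Nat.factorial).prod : ℕ)) ^ 2 else 0 := by
    intro k hk
    have hsum : ∑ t, k t = d := by simpa using (mem_piAntidiag.1 hk).1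
    let ℓ0 : Nat.Partition d := ⟨partsOf k, by
      intro i hi
      have := (Multiset.mem_filter.1 hi).2
      omega, by rw [sum_parts, hsum]⟩
    rw [Finset.sum_eq_single ℓ0]
    · rw [if_pos rfl]
      have hspec := Nat.multinomial_spec (s := (univ : Finset α)) (f := k)
      rw [hsum, prod_factorial_parts] at hspec
      have hpos : (0 : ℝ) < (((partsOf k).map Nat.factorial).prod : ℕ) := by
        rw [← prod_factorial_parts]
        exact_mod_cast Finset.prod_pos fun t _ => Nat.factorial_pos _
      congr 1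
      rw [eq_div_iff (by simpa [ℓ0] using hpos.ne')]
      rw [mul_comm]
      exact_mod_cast hspec
    · intro ℓ _ hne
      rw [if_neg]
      intro h
      apply hne
      ext1
      exact h.symm
    · intro h; exact absurd (mem_univ _) h
  rw [Finset.sum_congr rfl h1, Finset.sum_comm]
  refine Finset.sum_congr rfl fun ℓ _ => ?_
  have hcardle : Multiset.card ℓ.parts ≤ d := by
    have h2 : Multiset.card ℓ.parts • 1 ≤ ℓ.parts.sum :=
      Multiset.card_nsmul_le_sum (fun x hx => ℓ.parts_pos hx)
    rw [ℓ.parts_sum] at h2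
    simpa using h2
  obtain ⟨k0, hk0⟩ := exists_vector (α := α) ℓ.parts (fun i hi => (ℓ.parts_pos hi).ne')
    (hcardle.trans hd)
  rw [← Finset.sum_filter, Finset.sum_const, nsmul_eq_mul]
  have hT : ∀ k, k ∈ (piAntidiag (univ : Finset α) d).filter (fun k => partsOf k = ℓ.parts) ↔
      partsOf k = partsOf k0 := by
    intro k
    rw [mem_filter, hk0]
    constructor
    · exact fun h => h.2
    · intro h
      refine ⟨?_, h⟩
      rw [mem_piAntidiag]
      refine ⟨?_, fun i _ => mem_univ i⟩
      have := sum_parts k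
      rw [h, ℓ.parts_sum] at this
      simpa using this.symm
  have hk0d : ∀ t, k0 t ≤ d := by
    intro t
    have := sum_parts k0
    rw [hk0, ℓ.parts_sum] at this
    rw [this]
    exact Finset.single_le_sum (fun _ _ => Nat.zero_le _) (mem_univ t)
  have hc := count_parts _ k0 hT d hk0d
  rw [hk0] at hc
  rw [mul_comm]
  congr 1
  rw [eq_div_iff]
  · exact_mod_cast hc
  · have : 0 < (Fintype.card α - Multiset.card ℓ.parts).factorial *
        ∏ j ∈ Icc 1 d, (ℓ.parts.count j).factorial :=
      Nat.mul_pos (Nat.factorial_pos _) (Finset.prod_pos fun _ _ => Nat.factorial_pos _)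
    exact_mod_cast this.ne'

end Count

/-- `e(y) = exp(2πi Tr(y)/p)`. -/
noncomputable def e (p : ℕ) {F : Type*} [Field F] [Algebra (ZMod p) F] (y : F) : ℂ :=
  Complex.exp (2 * Real.pi * Complex.I * ((Algebra.trace (ZMod p) F y).val : ℂ) / p)

/-- The extension operator of the moment curve; a function on the curve is given as a function
of the parameter `t`. -/
noncomputable def extension (p d : ℕ) {F : Type*} [Field F] [Fintype F] [Algebra (ZMod p) F]
    (f : F → ℂ) (x : Fin d → F) : ℂ :=
  (1 / (Fintype.card F : ℂ)) * ∑ t, f t * e p (∑ i : Fin d, x i * t ^ (i.val + 1))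

/-- `L^{2d}` norm on `F^d` with counting measure. -/
noncomputable def normLd (d : ℕ) {F : Type*} [Fintype F] (g : (Fin d → F) → ℂ) : ℝ :=
  (∑ x, ‖g x‖ ^ (2 * d)) ^ (1 / (2 * d : ℝ))

/-- `L²(σ)` norm, `σ` the normalized counting measure on the curve. -/
noncomputable def normL2 {F : Type*} [Fintype F] (f : F → ℂ) : ℝ :=
  ((1 / (Fintype.card F : ℝ)) * ∑ t, ‖f t‖ ^ 2) ^ (1 / 2 : ℝ)

/-- The constant `C_{d,q}`. -/
noncomputable def Cdq (d q : ℕ) : ℝ := (((q : ℝ) ^ d)⁻¹ * partSum d q) ^ (1 / (2 * d : ℝ))

theorem result (p : ℕ) [Fact p.Prime] (F : Type) [Field F] [Fintype F] [Algebra (ZMod p) F]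
    (d : ℕ) (hd : 2 ≤ d) (hp : d < p) :
    (∀ f : F → ℂ, normLd d (extension p d f) ≤ Cdq d (Fintype.card F) * normL2 f) ∧
    (∃ f : F → ℂ, f ≠ 0 ∧ normLd d (extension p d f) = Cdq d (Fintype.card F) * normL2 f) ∧
    (∀ f : F → ℂ, f ≠ 0 →
      (normLd d (extension p d f) = Cdq d (Fintype.card F) * normL2 f ↔ ∃ c : ℝ, ∀ t, ‖f t‖ = c)) := by
  classical
  have hq : (0 : ℝ) < Fintype.card F := by exact_mod_cast Fintype.card_pos
  have hcharP : CharP F p := charP_of_injective_algebraMap (algebraMap (ZMod p) F).injective p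
  have hdF : ∀ j : ℕ, 1 ≤ j → j ≤ d → (j : F) ≠ 0 := by
    intro j h1 h2 h0
    rw [CharP.cast_eq_zero_iff F p] at h0
    exact absurd (Nat.le_of_dvd (by omega) h0) (by omega)
  have hdq : d ≤ Fintype.card F := by
    have h1 : p ∣ Fintype.card F := by
      rw [← CharP.cast_eq_zero_iff F p]
      simp
    have := Nat.le_of_dvd Fintype.card_pos h1
    omega
  -- the additive character
  let ψ : AddChar F ℂ := (ZMod.stdAddChar (N := p)).compAddMonoidHom
    ((Algebra.trace (ZMod p) F : F →ₗ[ZMod p] ZMod p) : F →+ ZMod p)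
  have hψe : ∀ y : F, e p y = ψ y := by
    intro y
    simp only [ψ, AddChar.compAddMonoidHom_apply, ZMod.stdAddChar_apply, ZMod.toCircle_apply, e]
    rfl
  have hψ1 : ψ ≠ 1 := by
    intro h
    obtain ⟨y, hy⟩ := Algebra.trace_surjective (ZMod p) F (1 : ZMod p)
    have h1 : ψ y = 1 := by rw [h]; rfl
    have h2 : ZMod.stdAddChar (N := p) 1 = 1 := by
      rw [← h1]
      simp only [ψ, AddChar.compAddMonoidHom_apply]
      congr 1
      exact hy.symm
    rw [← (ZMod.stdAddChar (N := p)).map_zero_eq_one] at h2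
    have h3 := ZMod.injective_stdAddChar h2
    have : Fact (1 < p) := ⟨by omega⟩
    exact one_ne_zero h3
  have hψ : ψ.IsPrimitive := AddChar.IsPrimitive.of_ne_one hψ1
  have hd0 : (2 * d : ℝ) ≠ 0 := by positivity
  have hexp : (1 / (2 * d : ℝ)) = (((2 * d : ℕ) : ℝ))⁻¹ := by push_cast; rw [one_div]
  have h2d : 2 * d ≠ 0 := by omega
  -- 2d-th power of the left side
  have hL : ∀ f : F → ℂ, normLd d (extension p d f) ^ (2 * d) =
      ((Fintype.card F : ℝ) ^ d)⁻¹ * S d (fun t => ‖f t‖ ^ 2) := by
    intro f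
    unfold normLd
    have h0 : 0 ≤ ∑ x : Fin d → F, ‖extension p d f x‖ ^ (2 * d) :=
      Finset.sum_nonneg fun x _ => by positivity
    rw [hexp, Real.rpow_inv_natCast_pow h0 h2d]
    have h1 : ∀ x : Fin d → F, ‖extension p d f x‖ ^ (2 * d) =
        ((Fintype.card F : ℝ) ^ (2 * d))⁻¹ *
          ‖∑ t, f t * ψ (∑ i : Fin d, x i * t ^ (i.val + 1))‖ ^ (2 * d) := by
      intro x
      unfold extension
      simp only [hψe]
      rw [norm_mul, mul_pow]
      congr 1
      rw [norm_div, norm_one, Complex.norm_natCast, one_div, inv_pow]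
    simp only [h1]
    rw [← Finset.mul_sum, fourier hdF ψ hψ f]
    have : (Fintype.card F : ℝ) ^ (2 * d) = (Fintype.card F : ℝ) ^ d * (Fintype.card F : ℝ) ^ d := by
      rw [two_mul, pow_add]
    rw [this]
    have hqd : (Fintype.card F : ℝ) ^ d ≠ 0 := by positivity
    field_simp
  have hSone : S d (fun _ : F => (1 : ℝ)) = partSum d (Fintype.card F) := S_one_eq d hdq
  have hSone_pos : 0 ≤ S d (fun _ : F => (1 : ℝ)) := by
    unfold S
    refine Finset.sum_nonneg fun k _ => mul_nonneg (by positivity) (Finset.prod_nonneg fun t _ => ?_)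
    positivity
  have hC0 : 0 ≤ ((Fintype.card F : ℝ) ^ d)⁻¹ * partSum d (Fintype.card F) := by
    rw [← hSone]; positivity
  -- 2d-th power of the right side
  have hR : ∀ f : F → ℂ, (Cdq d (Fintype.card F) * normL2 f) ^ (2 * d) =
      ((Fintype.card F : ℝ) ^ d)⁻¹ * (((∑ t, ‖f t‖ ^ 2) / Fintype.card F) ^ d *
        S d (fun _ : F => (1 : ℝ))) := by
    intro f
    rw [mul_pow]
    unfold Cdq normL2
    rw [hexp, Real.rpow_inv_natCast_pow hC0 h2d]
    have h0 : 0 ≤ (1 / (Fintype.card F : ℝ)) * ∑ t, ‖f t‖ ^ 2 :=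
      mul_nonneg (by positivity) (Finset.sum_nonneg fun t _ => by positivity)
    rw [pow_mul, ← Real.sqrt_eq_rpow, Real.sq_sqrt h0, ← hSone, one_div_mul_eq_div]
    ring
  have hLnn : ∀ f : F → ℂ, 0 ≤ normLd d (extension p d f) := by
    intro f; unfold normLd; positivity
  have hRnn : ∀ f : F → ℂ, 0 ≤ Cdq d (Fintype.card F) * normL2 f := by
    intro f; unfold Cdq normL2; positivity
  have hqd : (0 : ℝ) < ((Fintype.card F : ℝ) ^ d)⁻¹ := by positivity
  have hiff : ∀ f : F → ℂ, f ≠ 0 →
      (normLd d (extension p d f) = Cdq d (Fintype.card F) * normL2 f ↔ ∃ c : ℝ, ∀ t, ‖f t‖ = c) := by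
    intro f hf
    rw [← pow_left_inj₀ (hLnn f) (hRnn f) h2d, hL, hR]
    have hne : ∃ t, ‖f t‖ ^ 2 ≠ 0 := by
      obtain ⟨t, ht⟩ := Function.ne_iff.1 hf
      refine ⟨t, ?_⟩
      have : ‖f t‖ ≠ 0 := norm_ne_zero_iff.2 ht
      positivity
    have hmain := (S_le hd (fun t => ‖f t‖ ^ 2) (fun t => by positivity)).2 hne
    constructor
    · intro h
      have h1 := mul_left_cancel₀ hqd.ne' h
      have h2 := hmain.1 h1
      refine ⟨‖f 0‖, fun t => ?_⟩
      have h3 := h2 t 0
      exact (pow_left_inj₀ (norm_nonneg _) (norm_nonneg _) two_ne_zero).1 h3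
    · rintro ⟨c, hc⟩
      congr 1
      apply hmain.2
      intro s t
      simp only [hc]
  refine ⟨?_, ?_, hiff⟩
  · intro f
    rw [← pow_le_pow_iff_left₀ (hLnn f) (hRnn f) h2d, hL, hR]
    exact mul_le_mul_of_nonneg_left (S_le hd _ (fun t => by positivity)).1 hqd.le
  · have h1 : (fun _ : F => (1 : ℂ)) ≠ 0 := by
      intro h
      exact one_ne_zero (congrFun h 0)
    exact ⟨fun _ => 1, h1, (hiff _ h1).2 ⟨1, fun t => by simp⟩⟩

end Pool.Agent.Results.MP_110370_an.SharpMomentExtension
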